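import Pool.Agent.Work.MP_707689_an.N.Borel

/-!
Strong wave operators for two commuting selfadjoint `n`-tuples, `n ≥ 2`, whose differences lie in
Lorentz ideals with exponents `p j`, `∑ 1 / p j ≥ 1`: one operator `W` is the strong limit of
`f(B)* f(A)` on the absolutely continuous vectors of `A` along every family of Borel unimodular
functions that tends to zero in the weak star topology; it is isometric, intertwining and complete.
-/

open MeasureTheory Filter Topology Complex Pool.Agent.Work.MP_707689_an.N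

namespace Pool.Agent.Work.MP_707689_an.Parked.HybridN

theorem result (H : Type) [NormedAddCommGroup H] [InnerProductSpace ℂ H] [CompleteSpace H]
    (n : ℕ) (hn : 2 ≤ n) (A B : Fin n → H →L[ℂ] H) (E E' : Set (Fin n → ℝ) → H →L[ℂ] H)
    (hE : IsSpec A E) (hE' : IsSpec B E')
    (p : Fin n → ℝ) (hp : ∀ j, 0 < p j) (hs : 1 ≤ ∑ j, 1 / p j)
    (hK : ∀ j, Lor (p j) (A j - B j)) :
    ∃ W : H →L[ℂ] H,
      (∀ (ι : Type) (l : Filter ι) [l.IsCountablyGenerated] (f : ι → (Fin n → ℝ) → ℂ)
        (S T : ι → H →L[ℂ] H), (∀ i, Measurable (f i)) → (∀ i y, ‖f i y‖ = 1) →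
        (∀ g : (Fin n → ℝ) → ℂ, Integrable g → Tendsto (fun i => ∫ y, f i y * g y) l (𝓝 0)) →
        (∀ i, IsInt E (f i) (S i)) → (∀ i, IsInt E' (f i) (T i)) →
        ∀ x, AC E x → Tendsto (fun i => star (T i) (S i x)) l (𝓝 (W x))) ∧
      (∀ x, AC E x → ‖W x‖ = ‖x‖ ∧ ∀ j, W (A j x) = B j (W x)) ∧
      W '' {x | AC E x} = {y | AC E' y} :=
  N.wave1 hn hp hs hK hE hE'

end Pool.Agent.Work.MP_707689_an.Parked.HybridN
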