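import Pool.Agent.Work.MP_707689_an.Hy.Main

/-!
Strong wave operators for two commuting selfadjoint pairs whose differences lie in Lorentz ideals
with exponents `p, q`, `1 / p + 1 / q ≥ 1`: one operator `W` is the strong limit of
`f(B)* f(A)` on the absolutely continuous vectors of `A` along every family of continuous unimodular
functions that tends to zero in the weak star topology; it is isometric, intertwining and complete.
-/

open MeasureTheory Filter Topology Pool.Agent.Work.MP_707689_an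

namespace Pool.Agent.Work.MP_707689_an.Parked.HybridTwo

theorem result (H : Type) [NormedAddCommGroup H] [InnerProductSpace ℂ H] [CompleteSpace H]
    (A₁ A₂ B₁ B₂ : H →L[ℂ] H) (hA₁ : IsSelfAdjoint A₁) (hA₂ : IsSelfAdjoint A₂)
    (hB₁ : IsSelfAdjoint B₁) (hB₂ : IsSelfAdjoint B₂) (hA : Commute A₁ A₂) (hB : Commute B₁ B₂)
    (p q : ℝ) (hp : 0 < p) (hq : 0 < q) (hpq : 1 ≤ 1 / p + 1 / q)
    (hK₁ : InLor p (A₁ - B₁)) (hK₂ : InLor q (A₂ - B₂))
    (E : Set (ℝ × ℝ) → H →L[ℂ] H) (hE : IsJointSpec A₁ A₂ E) :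
    ∃ W : H →L[ℂ] H,
      (∀ (ι : Type) (l : Filter ι) [l.IsCountablyGenerated] (f : ι → ℝ × ℝ → ℂ),
        (∀ i, Continuous (f i)) → (∀ i y, ‖f i y‖ = 1) →
        (∀ g : ℝ × ℝ → ℂ, Integrable g → Tendsto (fun i => ∫ y, f i y * g y) l (𝓝 0)) →
        ∀ x, IsAC E x →
          Tendsto (fun i => star (fc (f i) B₁ B₂) (fc (f i) A₁ A₂ x)) l (𝓝 (W x))) ∧
      (∀ x, IsAC E x → ‖W x‖ = ‖x‖ ∧ W (A₁ x) = B₁ (W x) ∧ W (A₂ x) = B₂ (W x)) ∧
      ∀ E' : Set (ℝ × ℝ) → H →L[ℂ] H, IsJointSpec B₁ B₂ E' →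
        W '' {x | IsAC E x} = {y | IsAC E' y} := by
  obtain ⟨W, h1, h2, h3⟩ := wave1 ⟨hA₁, hA₂, hA⟩ ⟨hB₁, hB₂, hB⟩ hp hq hpq hK₁ hK₂ hE
  refine ⟨W, fun ι l _ f c1 c2 c3 x hx => h1 ι l f ⟨c1, c2, fun ν _ hν => ?_⟩ x hx, h2, h3⟩
  refine (c3 (fun y => ((ν.rnDeriv volume y).toReal : ℂ))
    (Measure.integrable_toReal_rnDeriv.ofReal)).congr fun i => ?_
  rw [← integral_rnDeriv_smul hν]
  simp only [Complex.real_smul, mul_comm]

end Pool.Agent.Work.MP_707689_an.Parked.HybridTwo
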