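import Pool.Agent.Work.MP_707689_an.G.Main

/-!
Strong wave operators for two commuting selfadjoint `n`-tuples whose differences lie in Lorentz
ideals with weights `Φ j`: each `Φ j` is increasing and grows by at most a factor `θ < 2` under
doubling, and the product of the `Φ j k` is at least `k`. One operator `W` is the strong limit of
`f(B)* f(A)` on the absolutely continuous vectors of `A` along every family of Borel unimodular
functions that tends to zero in the weak star topology; it is isometric, intertwining and complete.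
The weights `Φ j k = k ^ (1 / p j)` give the ideals `C_{p j}^-`; `n = 2` with the square root is the
hypothesis of the problem.
-/

open MeasureTheory Filter Topology Complex Pool.Agent.Work.MP_707689_an.N

namespace Pool.Agent.Work.MP_707689_an.Parked.HybridWave

theorem result (H : Type) [NormedAddCommGroup H] [InnerProductSpace ℂ H] [CompleteSpace H]
    (n : ℕ) (A B : Fin n → H →L[ℂ] H) (E E' : Set (Fin n → ℝ) → H →L[ℂ] H)
    (hE : IsSpec A E) (hE' : IsSpec B E')
    (Φ : Fin n → ℕ → ℝ) (θ : ℝ) (hθ : θ < 2) (hm : ∀ j, Monotone (Φ j)) (hp : ∀ j, 0 ≤ Φ j 1)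
    (hd : ∀ j k, 1 ≤ k → Φ j (2 * k) ≤ θ * Φ j k)
    (hs : ∀ k : ℕ, 1 ≤ k → (k : ℝ) ≤ ∏ j, Φ j k)
    (hK : ∀ j, Summable fun k : ℕ => sv (A j - B j) k * Φ j (k + 1) / ((k : ℝ) + 1)) :
    ∃ W : H →L[ℂ] H,
      (∀ (ι : Type) (l : Filter ι) [l.IsCountablyGenerated] (f : ι → (Fin n → ℝ) → ℂ)
        (S T : ι → H →L[ℂ] H), (∀ i, Measurable (f i)) → (∀ i y, ‖f i y‖ = 1) →
        (∀ g : (Fin n → ℝ) → ℂ, Integrable g → Tendsto (fun i => ∫ y, f i y * g y) l (𝓝 0)) →
        (∀ i, IsInt E (f i) (S i)) → (∀ i, IsInt E' (f i) (T i)) →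
        ∀ x, AC E x → Tendsto (fun i => star (T i) (S i x)) l (𝓝 (W x))) ∧
      (∀ x, AC E x → ‖W x‖ = ‖x‖ ∧ ∀ j, W (A j x) = B j (W x)) ∧
      W '' {x | AC E x} = {y | AC E' y} :=
  G.wave1 hθ hm hp hd hs hK hE hE'

end Pool.Agent.Work.MP_707689_an.Parked.HybridWave
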