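import Pool.Agent.Work.MP_707689_an.Wave

/-!
The wave operator of two commuting selfadjoint pairs whose differences lie in the Lorentz ideal
exists on the absolutely continuous subspace of the first pair, is isometric there and intertwines
the two pairs.
-/

open MeasureTheory Filter Topology Complex NormedSpace Pool.Agent.Work.MP_707689_an

namespace Pool.Agent.Work.MP_707689_an.Parked.WaveOperator

theorem result (H : Type) [NormedAddCommGroup H] [InnerProductSpace ℂ H] [CompleteSpace H]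
    (A₁ A₂ B₁ B₂ : H →L[ℂ] H) (hA₁ : IsSelfAdjoint A₁) (hA₂ : IsSelfAdjoint A₂)
    (hB₁ : IsSelfAdjoint B₁) (hB₂ : IsSelfAdjoint B₂) (hA : Commute A₁ A₂) (hB : Commute B₁ B₂)
    (hK₁ : InC2 (A₁ - B₁)) (hK₂ : InC2 (A₂ - B₂))
    (E : Set (ℝ × ℝ) → H →L[ℂ] H) (hE : IsJointSpec A₁ A₂ E) :
    ∃ W : H →L[ℂ] H, ∀ x : H, (∀ S, MeasurableSet S → volume S = 0 → E S x = 0) →
      Tendsto (fun t : ℝ => NormedSpace.exp ((-(I * t)) • B₁) (NormedSpace.exp ((I * t) • A₁) x))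
        atTop (𝓝 (W x)) ∧
      ‖W x‖ = ‖x‖ ∧ W (A₁ x) = B₁ (W x) ∧ W (A₂ x) = B₂ (W x) := by
  obtain ⟨W, hW⟩ := wave hA₁ hA₂ hB₁ hA hB hK₁ hK₂ hE
  refine ⟨W, fun x hx => ?_⟩
  simpa [ex] using hW x hx

end Pool.Agent.Work.MP_707689_an.Parked.WaveOperator
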